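import Pool.Agent.H586.SLB.Stm

/-!
# Project SLB: clustering of the Gaussian slab field
-/

set_option autoImplicit false

open MeasureTheory Set Filter Topology
open scoped Classical InnerProductSpace ComplexConjugate

namespace Pool.Agent.H120.SLB

open Pool.Agent.N990 Pool.Agent.N990.C Pool.Agent.N990.OS Pool.Agent.H586.SLB
open Pool.Agent.N839.C (tr tr_cont tr_supp QC_tr QC_rate)

variable {n D : ℕ}

theorem sol_neg (f : SrcM D) : sol (-f) = -sol f := (solL D).map_neg f

/-- the variance is invariant under the reflection and the change of sign -/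
theorem QC_neg_refl (i : Fin D) {f : Pt D → Fin D → ℝ} (hf : Continuous f)
    (hs : HasCompactSupport f) : QC (-(rfF i f)) = QC f := by
  have h1 : QC (-(rfS i ⟨f, hf, hs⟩) : SrcM D).1 = ‖sol (-(rfS i ⟨f, hf, hs⟩))‖ ^ 2 := QC_sol _
  have h2 : QC (⟨f, hf, hs⟩ : SrcM D).1 = ‖sol (⟨f, hf, hs⟩ : SrcM D)‖ ^ 2 := QC_sol _
  have h3 : ‖sol (-(rfS i ⟨f, hf, hs⟩))‖ ^ 2 = ‖sol (⟨f, hf, hs⟩ : SrcM D)‖ ^ 2 := by
    rw [sol_neg, norm_neg, sol_rfS, ← real_inner_self_eq_norm_sq, Th_inner,
      real_inner_self_eq_norm_sq]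
  have h4 : (-(rfS i ⟨f, hf, hs⟩) : SrcM D).1 = -(rfF i f) := rfl
  rw [h4, h3, ← h2] at h1
  exact h1

theorem abs_exp_sub_le {a b : ℝ} (ha : 0 ≤ a) (hb : 0 ≤ b) :
    |Real.exp (-a) - Real.exp (-b)| ≤ |a - b| := by
  have key : ∀ a b : ℝ, 0 ≤ a → a ≤ b → |Real.exp (-a) - Real.exp (-b)| ≤ |a - b| := by
    intro a b ha hab
    have h1 : Real.exp (-b) ≤ Real.exp (-a) := Real.exp_le_exp.2 (by linarith)
    have h2 : Real.exp (-a) ≤ 1 := Real.exp_le_one_iff.2 (by linarith)
    rw [abs_of_nonneg (by linarith), abs_sub_comm, abs_of_nonneg (by linarith)]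
    have h3 : Real.exp (-b) = Real.exp (-a) * Real.exp (-(b - a)) := by
      rw [← Real.exp_add]; congr 1; ring
    have h4 := Real.add_one_le_exp (-(b - a))
    have h5 := Real.exp_pos (-a)
    rw [h3]
    nlinarith
  rcases le_total a b with h | h
  · exact key a b ha h
  · rw [abs_sub_comm, abs_sub_comm a b]
    exact key b a hb h

theorem clu : S_CLU := by
  intro n D i m hm f g hf hg
  obtain ⟨C, hC⟩ := QC_rate (D := D) hm
  refine ⟨∑ j, C * Real.sqrt (QC (g j) * QC (f j)) / 2, fun t ht => ?_⟩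
  have hone : ∀ j, |QC ((shift i t g - refl i f) j) - QC (g j) - QC (f j)| ≤
      C * Real.exp (-(m * t)) * Real.sqrt (QC (g j) * QC (f j)) := by
    intro j
    have hFc : Continuous (-(rfF i (f j))) := (rfF_cont (hf.cont j)).neg
    have hFs : HasCompactSupport (-(rfF i (f j))) := (rfF_supp (hf.supp j)).neg
    have hGc : Continuous (tr (Pi.single i t) (g j)) := tr_cont (hg.cont j)
    have hGs : HasCompactSupport (tr (Pi.single i t) (g j)) := tr_supp (hg.supp j)
    have h1 := hC (tr (Pi.single i t) (g j)) (-(rfF i (f j))) t hGc hFc hGs hFs ht ?_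
    · rw [QC_tr _ (hg.cont j) (hg.supp j), QC_neg_refl i (hf.cont j) (hf.supp j)] at h1
      have h2 : (shift i t g - refl i f) j = tr (Pi.single i t) (g j) + -(rfF i (f j)) := by
        rw [← sub_eq_add_neg]
        rfl
      rw [h2]
      exact h1
    · intro p q hp hq
      have h3 : t ≤ p.1 i := by
        by_contra hcon
        apply hp
        show g j (p.1 - Pi.single i t, p.2) = 0
        apply hg.half j
        simp only [Pi.sub_apply, Pi.single_eq_same]
        linarith
      have h4 : q.1 i ≤ 0 := by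
        by_contra hcon
        apply hq
        have h5 : f j (rfp i q) = 0 := by
          apply hf.half j
          rw [rfp_i]
          linarith
        funext k
        show -(sg i k * f j (rfp i q) k) = 0
        rw [h5]
        simp
      have h6 := dist_le_pi_dist p.1 q.1 i
      rw [Real.dist_eq] at h6
      have h7 := le_abs_self (p.1 i - q.1 i)
      linarith
  have hQf : ∀ j, 0 ≤ QC (f j) := fun j =>
    Pool.Agent.N990.C.QC_nonneg (hf.cont j) (hf.supp j)
  have hQg : ∀ j, 0 ≤ QC (g j) := fun j =>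
    Pool.Agent.N990.C.QC_nonneg (hg.cont j) (hg.supp j)
  have hQh : ∀ j, 0 ≤ QC ((shift i t g - refl i f) j) := by
    intro j
    refine Pool.Agent.N990.C.QC_nonneg ?_ ?_
    · exact (tr_cont (v := Pi.single i t) (hg.cont j)).sub (rfF_cont (i := i) (hf.cont j))
    · exact (tr_supp (v := Pi.single i t) (hg.supp j)).sub (rfF_supp (i := i) (hf.supp j))
  have e1 : Sc f * Sc g = ((Real.exp (-((∑ j, QC (f j)) / 2 + (∑ j, QC (g j)) / 2)) : ℝ) : ℂ) := by
    unfold Sc
    rw [← Complex.ofReal_mul, ← Real.exp_add]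
    congr 2
    ring
  have e2 : Sc (shift i t g - refl i f) =
      ((Real.exp (-((∑ j, QC ((shift i t g - refl i f) j)) / 2)) : ℝ) : ℂ) := by
    unfold Sc
    rw [neg_div]
  rw [e1, e2, ← Complex.ofReal_sub, Complex.norm_real, Real.norm_eq_abs]
  have hS1 : 0 ≤ ∑ j, QC (f j) := Finset.sum_nonneg fun j _ => hQf j
  have hS2 : 0 ≤ ∑ j, QC (g j) := Finset.sum_nonneg fun j _ => hQg j
  have hS3 : 0 ≤ ∑ j, QC ((shift i t g - refl i f) j) := Finset.sum_nonneg fun j _ => hQh j
  refine (abs_exp_sub_le (by positivity) (by positivity)).trans ?_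
  have e3 : (∑ j, QC ((shift i t g - refl i f) j)) / 2 - ((∑ j, QC (f j)) / 2 +
      (∑ j, QC (g j)) / 2) =
      (∑ j, (QC ((shift i t g - refl i f) j) - QC (g j) - QC (f j))) / 2 := by
    rw [Finset.sum_sub_distrib, Finset.sum_sub_distrib]
    ring
  rw [e3, abs_div, abs_two]
  have h8 : |∑ j, (QC ((shift i t g - refl i f) j) - QC (g j) - QC (f j))| ≤
      ∑ j, C * Real.exp (-(m * t)) * Real.sqrt (QC (g j) * QC (f j)) :=
    (Finset.abs_sum_le_sum_abs _ _).trans (Finset.sum_le_sum fun j _ => hone j)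
  have e4 : (∑ j, C * Real.sqrt (QC (g j) * QC (f j)) / 2) * Real.exp (-(m * t)) =
      (∑ j, C * Real.exp (-(m * t)) * Real.sqrt (QC (g j) * QC (f j))) / 2 := by
    rw [Finset.sum_mul, Finset.sum_div]
    refine Finset.sum_congr rfl fun j _ => ?_
    ring
  rw [e4]
  linarith

end Pool.Agent.H120.SLB
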